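import Mathlib

open Polynomial Matrix

namespace Pool.Agent.Results.MP_557f7f_co.Superpattern

/-- `B` is a realization of the sign pattern `P`, i.e. `B ∈ Q(P)`. -/
def Realizes {n : ℕ} (P : Matrix (Fin n) (Fin n) SignType) (B : Matrix (Fin n) (Fin n) ℝ) : Prop :=
  ∀ i j, SignType.sign (B i j) = P i j

/-- `P` is spectrally arbitrary: every monic real polynomial of degree `n` is the characteristic
polynomial of some realization of `P`. -/
def SpectrallyArbitrary {n : ℕ} (P : Matrix (Fin n) (Fin n) SignType) : Prop :=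
  ∀ p : ℝ[X], p.Monic → p.natDegree = n → ∃ B : Matrix (Fin n) (Fin n) ℝ,
    Realizes P B ∧ B.charpoly = p

/-- `P'` is a superpattern of `P`. -/
def IsSuperpattern {n : ℕ} (P' P : Matrix (Fin n) (Fin n) SignType) : Prop :=
  ∀ i j, P i j ≠ 0 → P' i j = P i j

/-- the spectrally arbitrary pattern `M₄ ⊕ T₂` -/
def P6 : Matrix (Fin 6) (Fin 6) SignType :=
  !![ 1,  1, -1,  0,  0,  0;
     -1, -1,  1,  0,  0,  0;
      0,  0,  0, -1,  0,  0;
      1,  1,  0,  0,  0,  0;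
      0,  0,  0,  0,  1,  1;
      0,  0,  0,  0, -1, -1]

/-- its superpattern, in which only the `(1,4)` entry is changed, from `0` to `+` -/
def P6' : Matrix (Fin 6) (Fin 6) SignType :=
  !![ 1,  1, -1,  1,  0,  0;
     -1, -1,  1,  0,  0,  0;
      0,  0,  0, -1,  0,  0;
      1,  1,  0,  0,  0,  0;
      0,  0,  0,  0,  1,  1;
      0,  0,  0,  0, -1, -1]

def blk (a b c d e f g h k p : ℝ) : Matrix (Fin 4) (Fin 4) ℝ :=
  !![a, b, -c, p; -d, -e, f, 0; 0, 0, 0, -g; h, k, 0, 0]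

def blk2 (q r s t : ℝ) : Matrix (Fin 2) (Fin 2) ℝ := !![q, r; -s, -t]

def big (a b c d e f g h k p q r s t : ℝ) : Matrix (Fin 6) (Fin 6) ℝ :=
  !![a, b, -c, p, 0, 0; -d, -e, f, 0, 0, 0; 0, 0, 0, -g, 0, 0; h, k, 0, 0, 0, 0;
     0, 0, 0, 0, q, r; 0, 0, 0, 0, -s, -t]

theorem blk_charpoly (a b c d e f g h k p : ℝ) :
    (blk a b c d e f g h k p).charpoly =
      X ^ 4 + C (-(a - e)) * X ^ 3 + C (b * d - a * e - p * h) * X ^ 2
        + C (-(g * (c * h - k * f) + p * (e * h - d * k))) * X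
        + C (g * (b * f * h + c * d * k - c * e * h - a * f * k)) := by
  simp only [Matrix.charpoly, Matrix.charmatrix, blk, Matrix.det_succ_row_zero, Fin.sum_univ_succ]
  simp [Fin.succAbove, Matrix.submatrix]
  ring

theorem blk2_charpoly (q r s t : ℝ) :
    (blk2 q r s t).charpoly = X ^ 2 + C (-(q - t)) * X + C (r * s - q * t) := by
  simp only [Matrix.charpoly, Matrix.charmatrix, blk2, Matrix.det_fin_two]
  simp
  ring

theorem big_eq (a b c d e f g h k p q r s t : ℝ) :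
    big a b c d e f g h k p q r s t =
      Matrix.reindex (finSumFinEquiv (m := 4) (n := 2)) (finSumFinEquiv (m := 4) (n := 2))
        (Matrix.fromBlocks (blk a b c d e f g h k p) 0 0 (blk2 q r s t)) := by
  ext i j
  fin_cases i <;> fin_cases j <;> rfl

theorem big_charpoly (a b c d e f g h k p q r s t : ℝ) :
    (big a b c d e f g h k p q r s t).charpoly =
      (blk a b c d e f g h k p).charpoly * (blk2 q r s t).charpoly := by
  rw [big_eq, Matrix.charpoly_reindex, Matrix.charpoly_fromBlocks_zero₁₂]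

theorem realizes_P6 {a b c d e f g h k q r s t : ℝ} (ha : 0 < a) (hb : 0 < b) (hc : 0 < c)
    (hd : 0 < d) (he : 0 < e) (hf : 0 < f) (hg : 0 < g) (hh : 0 < h) (hk : 0 < k) (hq : 0 < q)
    (hr : 0 < r) (hs : 0 < s) (ht : 0 < t) :
    Realizes P6 (big a b c d e f g h k 0 q r s t) := by
  intro i j
  fin_cases i <;> fin_cases j <;>
    simp [big, P6, Left.sign_neg, sign_pos ha, sign_pos hb, sign_pos hc, sign_pos hd, sign_pos he,
      sign_pos hf, sign_pos hg, sign_pos hh, sign_pos hk, sign_pos hq, sign_pos hr, sign_pos hs,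
      sign_pos ht]

theorem of_realizes_P6' {B : Matrix (Fin 6) (Fin 6) ℝ} (hB : Realizes P6' B) :
    ∃ a b c d e f g h k p q r s t : ℝ, 0 < a ∧ 0 < b ∧ 0 < c ∧ 0 < d ∧ 0 < e ∧ 0 < f ∧ 0 < g ∧
      0 < h ∧ 0 < k ∧ 0 < p ∧ B = big a b c d e f g h k p q r s t := by
  have pos : ∀ i j, P6' i j = 1 → 0 < B i j := fun i j h => by
    have := hB i j; rw [h] at this; exact sign_eq_one_iff.mp this
  have neg : ∀ i j, P6' i j = -1 → B i j < 0 := fun i j h => by
    have := hB i j; rw [h] at this; exact sign_eq_neg_one_iff.mp this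
  have zer : ∀ i j, P6' i j = 0 → B i j = 0 := fun i j h => by
    have := hB i j; rw [h] at this; exact sign_eq_zero_iff.mp this
  refine ⟨B 0 0, B 0 1, -B 0 2, -B 1 0, -B 1 1, B 1 2, -B 2 3, B 3 0, B 3 1, B 0 3, B 4 4, B 4 5,
    -B 5 4, -B 5 5, pos 0 0 rfl, pos 0 1 rfl, neg_pos.mpr (neg 0 2 rfl), neg_pos.mpr (neg 1 0 rfl),
    neg_pos.mpr (neg 1 1 rfl), pos 1 2 rfl, neg_pos.mpr (neg 2 3 rfl), pos 3 0 rfl, pos 3 1 rfl,
    pos 0 3 rfl, ?_⟩
  ext i j
  fin_cases i <;> fin_cases j <;> simp [big] <;> exact zer _ _ rfl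

/-- the superpattern has no nilpotent realization: the key inequality -/
theorem no_nilpotent {a b c d e f g h k p : ℝ} (ha : 0 < a) (hb : 0 < b) (hc : 0 < c)
    (hd : 0 < d) (_he : 0 < e) (hf : 0 < f) (hg : 0 < g) (hh : 0 < h) (hk : 0 < k) (hp : 0 < p)
    (h1 : a - e = 0) (h2 : b * d - a * e - p * h = 0)
    (h3 : g * (c * h - k * f) + p * (e * h - d * k) = 0)
    (h4 : g * (b * f * h + c * d * k - c * e * h - a * f * k) = 0) : False := by
  have hae : e = a := by linarith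
  subst hae
  have hbd : e * e < b * d := by nlinarith [mul_pos hp hh]
  have h4' : c * (d * k - e * h) + f * (b * h - e * k) = 0 := by
    rcases mul_eq_zero.mp h4 with h | h
    · exact absurd h hg.ne'
    · linarith
  -- AM-GM
  have am : 2 * e * (h * k) < b * h ^ 2 + d * k ^ 2 := by
    by_contra hcon
    push Not at hcon
    have h5 : 0 < h * k := mul_pos hh hk
    have h6 : 0 ≤ b * h ^ 2 + d * k ^ 2 := by positivity
    have h7 : (b * h ^ 2 + d * k ^ 2) ^ 2 ≤ (2 * e * (h * k)) ^ 2 := by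
      apply pow_le_pow_left₀ h6 hcon
    have h8 : (2 * e * (h * k)) ^ 2 < 4 * (b * d) * (h * k) ^ 2 := by
      have : 0 < (h * k) ^ 2 := by positivity
      nlinarith
    nlinarith [sq_nonneg (b * h ^ 2 - d * k ^ 2)]
  rcases lt_trichotomy (d * k - e * h) 0 with hX | hX | hX
  · have hY : 0 < b * h - e * k := by
      by_contra hcon
      push Not at hcon
      have := mul_neg_of_pos_of_neg hc hX
      have := mul_nonpos_of_nonneg_of_nonpos hf.le hcon
      linarith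
    have hch : c * h < k * f := by
      have h9 : g * (c * h - k * f) < 0 := by nlinarith
      have : c * h - k * f < 0 := by
        by_contra hcon
        push Not at hcon
        have := mul_nonneg hg.le hcon
        linarith
      linarith
    -- c h Y < k f Y = - k c X
    have h10 : c * h * (b * h - e * k) < k * f * (b * h - e * k) :=
      mul_lt_mul_of_pos_right hch hY
    have h11 : c * (b * h ^ 2 + d * k ^ 2 - 2 * e * (h * k)) < 0 := by nlinarith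
    have : 0 < c * (b * h ^ 2 + d * k ^ 2 - 2 * e * (h * k)) := mul_pos hc (by linarith)
    linarith
  · have hY : b * h - e * k = 0 := by
      rw [hX] at h4'
      have : f * (b * h - e * k) = 0 := by linarith
      rcases mul_eq_zero.mp this with h | h
      · exact absurd h hf.ne'
      · exact h
    nlinarith
  · have hY : b * h - e * k < 0 := by
      by_contra hcon
      push Not at hcon
      have := mul_pos hc hX
      have := mul_nonneg hf.le hcon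
      linarith
    have hch : k * f < c * h := by
      have h9 : 0 < g * (c * h - k * f) := by nlinarith
      have : 0 < c * h - k * f := by
        by_contra hcon
        push Not at hcon
        have := mul_nonpos_of_nonneg_of_nonpos hg.le hcon
        linarith
      linarith
    have h10 : c * h * (b * h - e * k) < k * f * (b * h - e * k) :=
      mul_lt_mul_of_neg_right hch hY
    have h11 : c * (b * h ^ 2 + d * k ^ 2 - 2 * e * (h * k)) < 0 := by nlinarith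
    have : 0 < c * (b * h ^ 2 + d * k ^ 2 - 2 * e * (h * k)) := mul_pos hc (by linarith)
    linarith

theorem coeffs_zero {α β γ δ : ℝ}
    (h : (X ^ 4 + C α * X ^ 3 + C β * X ^ 2 + C γ * X + C δ : ℝ[X]) = X ^ 4) :
    α = 0 ∧ β = 0 ∧ γ = 0 ∧ δ = 0 := by
  have c3 := congrArg (fun z => coeff z 3) h
  have c2 := congrArg (fun z => coeff z 2) h
  have c1 := congrArg (fun z => coeff z 1) h
  have c0 := congrArg (fun z => coeff z 0) h
  simp [coeff_X, coeff_X_pow, coeff_C] at c3 c2 c1 c0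
  exact ⟨c3, c2, c1, c0⟩

theorem not_sap : ¬ SpectrallyArbitrary P6' := by
  intro hS
  obtain ⟨B, hB, hch⟩ := hS (X ^ 6) (monic_X_pow 6) (by simp)
  obtain ⟨a, b, c, d, e, f, g, h, k, p, q, r, s, t, ha, hb, hc, hd, he, hf, hg, hh, hk, hp, rfl⟩ :=
    of_realizes_P6' hB
  rw [big_charpoly] at hch
  have hdvd : (blk a b c d e f g h k p).charpoly ∣ X ^ 6 := ⟨_, hch.symm⟩
  obtain ⟨i, hi, hassoc⟩ := (dvd_prime_pow prime_X 6).mp hdvd
  have heq : (blk a b c d e f g h k p).charpoly = X ^ i :=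
    eq_of_monic_of_associated (Matrix.charpoly_monic _) (monic_X_pow i) hassoc
  have hdeg : (blk a b c d e f g h k p).charpoly.natDegree = 4 := by
    rw [Matrix.charpoly_natDegree_eq_dim]; rfl
  rw [heq, natDegree_X_pow] at hdeg
  subst hdeg
  rw [blk_charpoly] at heq
  obtain ⟨c3, c2, c1, c0⟩ := coeffs_zero heq
  exact no_nilpotent ha hb hc hd he hf hg hh hk hp (by linarith) c2 (by linarith) c0

/-- the quartics that `M₄` realizes, in terms of two quadratic factors -/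
def Good (b₁ c₁ b₂ c₂ : ℝ) : Prop :=
  b₁ * c₂ + b₂ * c₁ ≠ 0 ∨ c₁ + c₂ - (b₁ - b₂) ^ 2 / 4 < 0 ∨ 0 < c₁ * c₂ ∨
    (c₁ * c₂ = 0 ∧ c₁ + c₂ - (b₁ - b₂) ^ 2 / 4 = 0)

theorem good_pair (b₁ c₁ b₂ c₂ b₃ c₃ : ℝ) :
    Good b₁ c₁ b₂ c₂ ∨ Good b₁ c₁ b₃ c₃ ∨ Good b₂ c₂ b₃ c₃ := by
  by_contra hcon
  simp only [Good, not_or, not_and, not_lt, ne_eq, not_not] at hcon
  obtain ⟨⟨-, h12, h12', h12''⟩, ⟨-, h13, h13', h13''⟩, ⟨-, h23, h23', h23''⟩⟩ := hcon
  have hz : c₁ = 0 ∨ c₂ = 0 ∨ c₃ = 0 := by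
    by_contra hne
    push Not at hne
    obtain ⟨n1, n2, n3⟩ := hne
    rcases lt_or_gt_of_ne n1 with m1 | m1 <;> rcases lt_or_gt_of_ne n2 with m2 | m2 <;>
      rcases lt_or_gt_of_ne n3 with m3 | m3 <;>
      first
      | nlinarith [mul_pos_of_neg_of_neg m1 m2]
      | nlinarith [mul_pos m1 m2]
      | nlinarith [mul_pos_of_neg_of_neg m1 m3]
      | nlinarith [mul_pos m1 m3]
      | nlinarith [mul_pos_of_neg_of_neg m2 m3]
      | nlinarith [mul_pos m2 m3]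
  rcases hz with rfl | rfl | rfl
  · have a2 : 0 < c₂ := by
      have : 0 + c₂ - (b₁ - b₂) ^ 2 / 4 ≠ 0 := h12'' (by ring)
      have := lt_of_le_of_ne h12 (Ne.symm this)
      nlinarith [sq_nonneg (b₁ - b₂)]
    have a3 : 0 < c₃ := by
      have : 0 + c₃ - (b₁ - b₃) ^ 2 / 4 ≠ 0 := h13'' (by ring)
      have := lt_of_le_of_ne h13 (Ne.symm this)
      nlinarith [sq_nonneg (b₁ - b₃)]
    nlinarith [mul_pos a2 a3]
  · have a1 : 0 < c₁ := by
      have : c₁ + 0 - (b₁ - b₂) ^ 2 / 4 ≠ 0 := h12'' (by ring)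
      have := lt_of_le_of_ne h12 (Ne.symm this)
      nlinarith [sq_nonneg (b₁ - b₂)]
    have a3 : 0 < c₃ := by
      have : 0 + c₃ - (b₂ - b₃) ^ 2 / 4 ≠ 0 := h23'' (by ring)
      have := lt_of_le_of_ne h23 (Ne.symm this)
      nlinarith [sq_nonneg (b₂ - b₃)]
    nlinarith [mul_pos a1 a3]
  · have a1 : 0 < c₁ := by
      have : c₁ + 0 - (b₁ - b₃) ^ 2 / 4 ≠ 0 := h13'' (by ring)
      have := lt_of_le_of_ne h13 (Ne.symm this)
      nlinarith [sq_nonneg (b₁ - b₃)]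
    have a2 : 0 < c₂ := by
      have : c₂ + 0 - (b₂ - b₃) ^ 2 / 4 ≠ 0 := h23'' (by ring)
      have := lt_of_le_of_ne h23 (Ne.symm this)
      nlinarith [sq_nonneg (b₂ - b₃)]
    nlinarith [mul_pos a1 a2]

/-- `T₂` realizes every monic quadratic -/
theorem t2_real (b c : ℝ) : ∃ q r s t : ℝ, 0 < q ∧ 0 < r ∧ 0 < s ∧ 0 < t ∧
    (blk2 q r s t).charpoly = X ^ 2 + C b * X + C c := by
  obtain ⟨t, ht⟩ : ∃ t : ℝ, |b| + |c| + 1 ≤ t := ⟨_, le_rfl⟩
  have hb1 := le_abs_self b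
  have hb2 := neg_abs_le b
  have hc1 := neg_abs_le c
  have hb0 := abs_nonneg b
  have hc0 := abs_nonneg c
  refine ⟨t - b, 1, c + (t - b) * t, t, by linarith, one_pos, ?_, by linarith, ?_⟩
  · nlinarith
  · rw [blk2_charpoly]
    congr 2
    · congr 1; congr 1; ring
    · ring

/-- numbers needed to realize a good quartic -/
theorem exists_params {E1 E2 E3 E4 : ℝ}
    (h : E3 ≠ 0 ∨ E2 - E1 ^ 2 / 4 < 0 ∨ 0 < E4 ∨ (E4 = 0 ∧ E2 - E1 ^ 2 / 4 = 0)) :
    ∃ t u v : ℝ, |E1| < t ∧ 0 < t ^ 2 + (E2 - E1 ^ 2 / 4) ∧ 0 < u ∧ 0 < v ∧ u - v = E3 ∧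
      0 < (E4 - E1 * E3 / 2) + t * (u + v) ∧
      4 * (u * v) * (t ^ 2 + (E2 - E1 ^ 2 / 4)) ≤ ((E4 - E1 * E3 / 2) + t * (u + v)) ^ 2 := by
  set δ := E2 - E1 ^ 2 / 4 with hδ
  set K := E4 - E1 * E3 / 2 with hK
  by_cases h3 : E3 = 0
  · subst h3
    have h' : δ < 0 ∨ 0 < E4 ∨ (E4 = 0 ∧ δ = 0) := by
      rcases h with h | h
      · exact absurd rfl h
      · exact h
    have hK' : K = E4 := by rw [hK]; ring
    rw [hK']
    have hE1 := abs_nonneg E1
    have hE4 := abs_nonneg E4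
    have hδ0 := abs_nonneg δ
    have hδ1 := neg_abs_le δ
    have hE41 := neg_abs_le E4
    obtain ⟨t, ht⟩ : ∃ t : ℝ, t = |E1| + |δ| + 1 := ⟨_, rfl⟩
    have htp : 0 < t ^ 2 + δ := by nlinarith
    have ht0 : 0 < t := by linarith
    rcases h' with h' | h' | ⟨h', h''⟩
    · -- u large
      obtain ⟨u, hu⟩ : ∃ u : ℝ, u = |E4| * t / (-δ) + |E4| / t + 1 := ⟨_, rfl⟩
      have e1 : 0 ≤ |E4| * t / (-δ) := by
        apply div_nonneg (by positivity) (by linarith)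
      have e2 : 0 ≤ |E4| / t := by positivity
      have hu0 : 0 < u := by linarith
      have e3 : |E4| * t ≤ u * (-δ) := by
        have : |E4| * t / (-δ) ≤ u := by linarith
        rwa [div_le_iff₀ (by linarith)] at this
      have e4 : |E4| < u * t := by
        have : |E4| / t < u := by linarith
        rwa [div_lt_iff₀ ht0] at this
      refine ⟨t, u, u, by linarith, htp, hu0, hu0, by ring, by nlinarith, ?_⟩
      nlinarith [mul_nonneg hu0.le ht0.le, mul_le_mul_of_nonneg_left e3 hu0.le, sq_nonneg E4,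
        mul_nonneg (mul_nonneg hu0.le ht0.le) (by linarith : 0 ≤ |E4| + E4)]
    · obtain ⟨u, hu⟩ : ∃ u : ℝ, u = E4 * t / (|δ| + 1) := ⟨_, rfl⟩
      have hu0 : 0 < u := by rw [hu]; positivity
      have e1 : u * δ ≤ E4 * t := by
        have : u * (|δ| + 1) = E4 * t := by rw [hu]; field_simp
        have h2 : δ ≤ |δ| + 1 := by linarith [le_abs_self δ]
        nlinarith
      refine ⟨t, u, u, by linarith, htp, hu0, hu0, by ring, by positivity, ?_⟩
      nlinarith [mul_le_mul_of_nonneg_left e1 hu0.le, sq_nonneg E4]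
    · refine ⟨t, 1, 1, by linarith, htp, one_pos, one_pos, by ring, by rw [h']; linarith, ?_⟩
      rw [h', h'']
      nlinarith
  · obtain ⟨u, v, hu, hv, huv⟩ : ∃ u v : ℝ, 0 < u ∧ 0 < v ∧ u - v = E3 := by
      rcases lt_or_gt_of_ne h3 with h | h
      · exact ⟨1, 1 - E3, one_pos, by linarith, by ring⟩
      · exact ⟨1 + E3, 1, by linarith, one_pos, by ring⟩
    have hE3 : 0 < E3 ^ 2 := by positivity
    have hE1 := abs_nonneg E1
    have hδ0 := abs_nonneg δ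
    have hδ1 := neg_abs_le δ
    have hδ2 := le_abs_self δ
    have hK0 := abs_nonneg K
    have hK1 := neg_abs_le K
    obtain ⟨t, ht⟩ : ∃ t : ℝ, t = |E1| + |δ| + 1 + |K| / (u + v)
        + (2 * |K| * (u + v) + 4 * (u * v) * |δ|) / E3 ^ 2 := ⟨_, rfl⟩
    have q1 : 0 ≤ |K| / (u + v) := by positivity
    have q2 : 0 ≤ (2 * |K| * (u + v) + 4 * (u * v) * |δ|) / E3 ^ 2 := by positivity
    have ht1 : 1 ≤ t := by linarith
    have r1 : |K| < t * (u + v) := by
      have : |K| / (u + v) < t := by linarith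
      rwa [div_lt_iff₀ (by positivity)] at this
    have r2 : 2 * |K| * (u + v) + 4 * (u * v) * |δ| ≤ t * E3 ^ 2 := by
      have : (2 * |K| * (u + v) + 4 * (u * v) * |δ|) / E3 ^ 2 ≤ t := by linarith
      rwa [div_le_iff₀ hE3] at this
    refine ⟨t, u, v, by linarith, by nlinarith, hu, hv, huv, by linarith, ?_⟩
    have r3 : t * (2 * |K| * (u + v) + 4 * (u * v) * |δ|) ≤ t * (t * E3 ^ 2) :=
      mul_le_mul_of_nonneg_left r2 (by linarith)
    have r4 : 4 * (u * v) * δ ≤ t * (4 * (u * v) * |δ|) := by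
      have : 0 < u * v := mul_pos hu hv
      have h5 : 4 * (u * v) * δ ≤ 4 * (u * v) * |δ| := by nlinarith
      have h6 : 0 ≤ 4 * (u * v) * |δ| := by positivity
      nlinarith
    have r5 : -(2 * K * (u + v) * t) ≤ t * (2 * |K| * (u + v)) := by
      have h7 : 0 ≤ (u + v) * t := by positivity
      nlinarith
    have r6 : (u + v) ^ 2 - 4 * (u * v) = E3 ^ 2 := by rw [← huv]; ring
    nlinarith [sq_nonneg K]

theorem m4_real {b₁ c₁ b₂ c₂ : ℝ} (hgood : Good b₁ c₁ b₂ c₂) :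
    ∃ a b c d e f g h k : ℝ, 0 < a ∧ 0 < b ∧ 0 < c ∧ 0 < d ∧ 0 < e ∧ 0 < f ∧ 0 < g ∧ 0 < h ∧
      0 < k ∧ (blk a b c d e f g h k 0).charpoly =
        (X ^ 2 + C b₁ * X + C c₁) * (X ^ 2 + C b₂ * X + C c₂) := by
  obtain ⟨E1, hE1⟩ : ∃ x : ℝ, x = -(b₁ + b₂) := ⟨_, rfl⟩
  obtain ⟨E2, hE2⟩ : ∃ x : ℝ, x = c₁ + c₂ + b₁ * b₂ := ⟨_, rfl⟩
  obtain ⟨E3, hE3⟩ : ∃ x : ℝ, x = -(b₁ * c₂ + b₂ * c₁) := ⟨_, rfl⟩
  obtain ⟨E4, hE4⟩ : ∃ x : ℝ, x = c₁ * c₂ := ⟨_, rfl⟩
  have hδ : E2 - E1 ^ 2 / 4 = c₁ + c₂ - (b₁ - b₂) ^ 2 / 4 := by rw [hE1, hE2]; ring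
  have hpar : E3 ≠ 0 ∨ E2 - E1 ^ 2 / 4 < 0 ∨ 0 < E4 ∨ (E4 = 0 ∧ E2 - E1 ^ 2 / 4 = 0) := by
    rw [hδ, hE3, hE4]
    rcases hgood with h | h
    · left; exact neg_ne_zero.mpr h
    · right; exact h
  obtain ⟨t, u, v, ht, htp, hu, hv, huv, hpos, hsq⟩ := exists_params hpar
  obtain ⟨s, hs⟩ : ∃ s : ℝ, s = Real.sqrt (t ^ 2 + (E2 - E1 ^ 2 / 4)) := ⟨_, rfl⟩
  have hs0 : 0 < s := by rw [hs]; exact Real.sqrt_pos.mpr htp
  have hss : s * s = t ^ 2 + (E2 - E1 ^ 2 / 4) := by rw [hs]; exact Real.mul_self_sqrt htp.le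
  obtain ⟨S, hS⟩ : ∃ S : ℝ, S = ((E4 - E1 * E3 / 2) + t * (u + v)) / s := ⟨_, rfl⟩
  have hSs : s * S = (E4 - E1 * E3 / 2) + t * (u + v) := by rw [hS]; field_simp
  have hS0 : 0 < S := by rw [hS]; exact div_pos hpos hs0
  have hS2 : 0 ≤ S ^ 2 - 4 * (u * v) := by
    have h1 : 4 * (u * v) * (s * s) ≤ (s * S) ^ 2 := by rw [hss, hSs]; exact hsq
    have h2 : 0 ≤ (s * s) * (S ^ 2 - 4 * (u * v)) := by nlinarith
    exact nonneg_of_mul_nonneg_right h2 (mul_pos hs0 hs0)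
  obtain ⟨w, hw⟩ : ∃ w : ℝ, w = (S + Real.sqrt (S ^ 2 - 4 * (u * v))) / 2 := ⟨_, rfl⟩
  have hsqrt := Real.mul_self_sqrt hS2
  have hsqrt0 := Real.sqrt_nonneg (S ^ 2 - 4 * (u * v))
  have hw0 : 0 < w := by rw [hw]; linarith
  have hww : w * w - S * w + u * v = 0 := by rw [hw]; nlinarith
  have hwS : w + u * v / w = S := by
    field_simp
    nlinarith
  have hb1 := le_abs_self E1
  have hb2 := neg_abs_le E1
  refine ⟨t + E1 / 2, s, 1, s, t - E1 / 2, w / u, 1, u, u * v / w, by linarith, hs0, one_pos, hs0,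
    by linarith, by positivity, one_pos, hu, by positivity, ?_⟩
  rw [blk_charpoly]
  have k3 : -((t + E1 / 2) - (t - E1 / 2)) = b₁ + b₂ := by rw [hE1]; ring
  have k2 : s * s - (t + E1 / 2) * (t - E1 / 2) - 0 * u = c₁ + c₂ + b₁ * b₂ := by
    rw [hss, ← hE2]; ring
  have hfk : u * v / w * (w / u) = v := by field_simp
  have k1 : -(1 * (1 * u - u * v / w * (w / u)) + 0 * ((t - E1 / 2) * u - s * (u * v / w)))
      = b₁ * c₂ + b₂ * c₁ := by
    rw [hfk]
    have : b₁ * c₂ + b₂ * c₁ = -E3 := by rw [hE3]; ring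
    rw [this, ← huv]; ring
  have k0 : 1 * (s * (w / u) * u + 1 * s * (u * v / w) - 1 * (t - E1 / 2) * u
      - (t + E1 / 2) * (w / u) * (u * v / w)) = c₁ * c₂ := by
    have e1 : s * (w / u) * u + 1 * s * (u * v / w) = s * S := by
      rw [← hwS]; field_simp
    have e2 : (t + E1 / 2) * (w / u) * (u * v / w) = (t + E1 / 2) * v := by field_simp
    rw [e1, e2, hSs, ← hE4, ← huv]; ring
  rw [k3, k2, k1, k0]
  simp only [C_add, C_mul]
  ring

theorem sap : SpectrallyArbitrary P6 := by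
  intro p hp hdeg
  have h6 : IsMonicOfDegree p (4 + 2) := ⟨hdeg, hp⟩
  obtain ⟨f₁, r, hf₁, hr, hpr⟩ := h6.eq_isMonicOfDegree_two_mul_isMonicOfDegree
  have h4 : IsMonicOfDegree r (2 + 2) := hr
  obtain ⟨f₂, f₃, hf₂, hf₃, hrr⟩ := h4.eq_isMonicOfDegree_two_mul_isMonicOfDegree
  obtain ⟨b₁, c₁, h1⟩ := isMonicOfDegree_two_iff.mp hf₁
  obtain ⟨b₂, c₂, h2⟩ := isMonicOfDegree_two_iff.mp hf₂
  obtain ⟨b₃, c₃, h3⟩ := isMonicOfDegree_two_iff.mp hf₃
  have key : ∀ b₁ c₁ b₂ c₂ b₃ c₃ : ℝ, Good b₁ c₁ b₂ c₂ →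
      p = (X ^ 2 + C b₁ * X + C c₁) * (X ^ 2 + C b₂ * X + C c₂) * (X ^ 2 + C b₃ * X + C c₃) →
      ∃ B : Matrix (Fin 6) (Fin 6) ℝ, Realizes P6 B ∧ B.charpoly = p := by
    intro b₁ c₁ b₂ c₂ b₃ c₃ hg hpe
    obtain ⟨a, b, c, d, e, f, g, h, k, ha, hb, hc, hd, he, hf, hg, hh, hk, hch⟩ := m4_real hg
    obtain ⟨q, r, s, t, hq, hr, hs, ht, hch2⟩ := t2_real b₃ c₃
    refine ⟨big a b c d e f g h k 0 q r s t,
      realizes_P6 ha hb hc hd he hf hg hh hk hq hr hs ht, ?_⟩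
    rw [big_charpoly, hch, hch2, hpe]
  have hp3 : p = (X ^ 2 + C b₁ * X + C c₁) * (X ^ 2 + C b₂ * X + C c₂) *
      (X ^ 2 + C b₃ * X + C c₃) := by
    rw [hpr, hrr, h1, h2, h3]; ring
  rcases good_pair b₁ c₁ b₂ c₂ b₃ c₃ with hg | hg | hg
  · exact key b₁ c₁ b₂ c₂ b₃ c₃ hg hp3
  · exact key b₁ c₁ b₃ c₃ b₂ c₂ hg (by rw [hp3]; ring)
  · exact key b₂ c₂ b₃ c₃ b₁ c₁ hg (by rw [hp3]; ring)

/-- There is a spectrally arbitrary sign pattern having a superpattern that is not spectrally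
arbitrary. -/
theorem result : ∃ P P' : Matrix (Fin 6) (Fin 6) SignType,
    SpectrallyArbitrary P ∧ IsSuperpattern P' P ∧ ¬ SpectrallyArbitrary P' := by
  refine ⟨P6, P6', sap, ?_, not_sap⟩
  intro i j hij
  fin_cases i <;> fin_cases j <;> first | rfl | exact absurd rfl hij

end Pool.Agent.Results.MP_557f7f_co.Superpattern
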